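import Mathlib
import Pool.Agent.H25.GaussC

namespace Pool.Agent.Results.MP_54f1ce_nt.CaoParity

open Finset Pool.Agent.H25.GaussA Pool.Agent.H25.GaussC

/-- The value `c₁ + 1/(c₂ + 1/(⋯ + 1/c_k))` of a finite simple continued fraction
(the empty tail has value `0` and `1/0 = 0`, so `val [c] = c`). -/
def val : List ℕ → ℚ
  | [] => 0
  | c :: l => c + 1 / val l

/-- `l` is an expansion of `x` with positive quotients and last quotient `> 1`. -/
def IsCF (l : List ℕ) (x : ℚ) : Prop :=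
  (∀ c ∈ l, 0 < c) ∧ (∃ c, l.getLast? = some c ∧ 1 < c) ∧ val l = x

/-- The length `λ(n)` of the expansion of `p / n`. -/
noncomputable def lam (p n : ℕ) : ℕ := sInf {k | ∃ l, IsCF l ((p : ℚ) / n) ∧ l.length = k}

noncomputable def M (p : ℕ) : Finset ℕ :=
  (Ioo 0 p).filter (fun n => jacobiSym n p = (-1) ^ lam p n)

noncomputable def Mbar (p : ℕ) : Finset ℕ :=
  (Ioo 0 p).filter (fun n => jacobiSym n p = (-1) ^ (lam p n + 1))

lemma exists_cf (b : ℕ) : ∀ a, 0 < b → b < a → ∃ l, IsCF l ((a : ℚ) / b) := by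
  induction b using Nat.strong_induction_on with
  | _ b ih =>
  intro a h0 h1
  have e : (a : ℚ) = b * (a / b : ℕ) + (a % b : ℕ) := by exact_mod_cast (Nat.div_add_mod a b).symm
  have b0 : (b : ℚ) ≠ 0 := by exact_mod_cast h0.ne'
  have q0 : 0 < a / b := Nat.div_pos h1.le h0
  by_cases h : a % b = 0
  · have := Nat.div_add_mod a b
    have q1 : 1 < a / b := by
      by_contra hc
      rw [show a / b = 1 by omega] at this
      omega
    refine ⟨[a / b], by simpa using q0, ⟨_, rfl, q1⟩, ?_⟩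
    rw [val, val, e, h]; field_simp; simp
  · obtain ⟨l, l1, ⟨c, l2, l3⟩, l4⟩ := ih (a % b) (Nat.mod_lt _ h0) b (by omega) (Nat.mod_lt _ h0)
    refine ⟨a / b :: l, ?_, ⟨c, ?_, l3⟩, ?_⟩
    · intro x hx
      rcases List.mem_cons.1 hx with rfl | hx
      exacts [q0, l1 x hx]
    · rw [List.getLast?_cons, l2]; rfl
    · rw [val, l4, one_div_div, e]
      field_simp

lemma bez (l : List ℕ) : (∀ c ∈ l, 0 < c) → (∃ c, l.getLast? = some c ∧ 1 < c) →
    ∃ a b x y : ℕ, 0 < a ∧ 0 < b ∧ val l = (a : ℚ) / b ∧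
      (b * x - a * y : ℤ) = (-1) ^ (l.length + 1) ∧ 2 * x ≤ a ∧ 2 * y ≤ b := by
  induction l with
  | nil => rintro _ ⟨c, h, _⟩; simp at h
  | cons c l ih =>
    rintro h1 ⟨d, h2, h3⟩
    by_cases hl : l = []
    · subst hl
      obtain rfl : c = d := by simpa using h2
      exact ⟨c, 1, 1, 0, by omega, by omega, by simp [val], by simp, by omega, by omega⟩
    · obtain ⟨a, b, x, y, a0, b0, e1, e2, e3, e4⟩ := ih (fun z hz => h1 z (List.mem_cons_of_mem _ hz))
        ⟨d, by rwa [List.getLast?_cons_of_ne_nil hl] at h2, h3⟩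
      refine ⟨c * a + b, a, c * x + y, x, by omega, a0, ?_, ?_, by nlinarith, e3⟩
      · have : (a : ℚ) ≠ 0 := by exact_mod_cast a0.ne'
        rw [val, e1, one_div_div]; push_cast; field_simp
      · rw [List.length_cons, pow_succ, ← e2]; push_cast; ring

def sg (p y : ℕ) : ℤ := if 2 * y < p then 1 else -1

lemma key {p n : ℕ} (h4 : p % 4 = 3) (h0 : 0 < n) (h1 : n < p) (hc : Nat.Coprime n p) :
    ∃ y, y < p ∧ n * y ≡ 1 [MOD p] ∧ (-1) ^ (lam p n + 1) = sg p y := by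
  obtain ⟨l0, hl0⟩ := exists_cf n p h0 h1
  obtain ⟨l, ⟨l1, l2, l3⟩, l4⟩ := Nat.sInf_mem (s := {k | ∃ l, IsCF l ((p : ℚ) / n) ∧ l.length = k})
    ⟨_, l0, hl0, rfl⟩
  obtain ⟨a, b, x, y, a0, b0, e1, e2, e3, e4⟩ := bez l l1 l2
  rw [lam, ← l4]
  have e5 : a * n = p * b := by
    rw [l3, div_eq_div_iff (by exact_mod_cast h0.ne') (by exact_mod_cast b0.ne')] at e1
    exact_mod_cast e1.symm
  have cop : Nat.Coprime a b := by
    have d : ((Nat.gcd a b : ℕ) : ℤ) ∣ (-1) ^ (l.length + 1) := by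
      rw [← e2]
      exact dvd_sub (Dvd.dvd.mul_right (by exact_mod_cast Nat.gcd_dvd_right a b) _)
        (Dvd.dvd.mul_right (by exact_mod_cast Nat.gcd_dvd_left a b) _)
    simpa using Int.natAbs_dvd_natAbs.2 d
  obtain rfl : a = p := Nat.dvd_antisymm (cop.dvd_of_dvd_mul_right ⟨n, e5.symm⟩)
    (hc.symm.dvd_of_dvd_mul_right ⟨b, e5⟩)
  obtain rfl : n = b := Nat.eq_of_mul_eq_mul_left a0 e5
  rcases neg_one_pow_eq_or ℤ (l.length + 1) with h | h <;> rw [h] at e2 ⊢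
  · refine ⟨x, by omega, ?_, by rw [sg, if_pos (by omega)]⟩
    exact (Nat.modEq_iff_dvd.2 ⟨-y, by push_cast; linarith⟩)
  · have x0 : x ≠ 0 := by
      rintro rfl
      have : a * y = 1 := by zify; simp at e2; linarith
      have := Nat.eq_one_of_mul_eq_one_right this
      omega
    refine ⟨a - x, by omega, ?_, by rw [sg, if_neg (by omega)]⟩
    refine Nat.modEq_iff_dvd.2 ⟨y - n, ?_⟩
    rw [Nat.cast_mul, Nat.cast_sub (by omega)]
    push_cast; linarith

noncomputable def A (p : ℕ) (ε : ℤ) : Finset ℕ :=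
  (Ioo 0 p).filter (fun n => jacobiSym n p = ε * (-1) ^ (lam p n + 1))

def T (p : ℕ) (ε : ℤ) : Finset ℕ := (range p).filter (fun y => jacobiSym y p = ε * sg p y)

lemma cop_of {p n : ℕ} (h4 : p % 4 = 3) (h : jacobiSym n p ≠ 0) : Nat.Coprime n p := by
  by_contra hc
  exact h (jacobiSym.eq_zero_iff.2 ⟨by omega, by rwa [Int.gcd_natCast_natCast]⟩)

lemma J_inv {p n y : ℕ} (h : n * y ≡ 1 [MOD p]) : jacobiSym n p = jacobiSym y p := by
  have e := J_mod h
  rw [Nat.cast_mul, jacobiSym.mul_left, Nat.cast_one, jacobiSym.one_left] at e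
  exact Int.eq_of_mul_eq_one e

lemma uniq {p n y z : ℕ} (h1 : n * y ≡ 1 [MOD p]) (h2 : n * z ≡ 1 [MOD p]) (hy : y < p) (hz : z < p) :
    y = z := by
  refine Nat.ModEq.eq_of_lt_of_lt ?_ hy hz
  have a := h1.mul_left z
  have b := h2.mul_left y
  rw [mul_one] at a b
  rw [show y * (n * z) = z * (n * y) by ring] at b
  exact b.symm.trans a

lemma card_eq {p : ℕ} (h4 : p % 4 = 3) {ε : ℤ} (hε : ε ≠ 0) : #(A p ε) = #(T p ε) := by
  have c : ∀ n ∈ A p ε, 0 < n ∧ n < p ∧ Nat.Coprime n p := fun n hn => by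
    obtain ⟨a, b⟩ := mem_filter.1 hn
    exact ⟨(mem_Ioo.1 a).1, (mem_Ioo.1 a).2, cop_of h4 (by rw [b]; positivity)⟩
  choose f f1 f2 f3 using fun n (hn : n ∈ A p ε) => key h4 (c n hn).1 (c n hn).2.1 (c n hn).2.2
  refine card_bij f (fun n hn => ?_) (fun n hn m hm e => ?_) (fun y hy => ?_)
  · exact mem_filter.2 ⟨mem_range.2 (f1 n hn), by
      rw [← J_inv (f2 n hn), ← f3]; exact (mem_filter.1 hn).2⟩
  · have a := f2 n hn
    have b := f2 m hm
    rw [← e, mul_comm] at b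
    rw [mul_comm] at a
    exact uniq a b (c n hn).2.1 (c m hm).2.1
  · obtain ⟨a, b⟩ := mem_filter.1 hy
    have cy : Nat.Coprime y p := cop_of h4 (by rw [b, sg]; split_ifs <;> simpa using hε)
    obtain ⟨n, n1, n2⟩ := Nat.exists_mul_mod_eq_one_of_coprime cy (by omega)
    have n3 : n * y ≡ 1 [MOD p] := by
      rw [mul_comm, Nat.ModEq, n2, Nat.mod_eq_of_lt (by omega)]
    have n0 : 0 < n := by
      rcases Nat.eq_zero_or_pos n with rfl | h
      · simp at n2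
      · exact h
    obtain ⟨z, z1, z2, z3⟩ := key h4 n0 n1 (Nat.coprime_of_mul_modEq_one y n3)
    obtain rfl := uniq z2 n3 z1 (mem_range.1 a)
    have hn : n ∈ A p ε := mem_filter.2 ⟨mem_Ioo.2 ⟨n0, n1⟩, by rw [J_inv n3, z3]; exact b⟩
    exact ⟨n, hn, uniq (f2 n hn) n3 (f1 n hn) z1⟩

lemma T_le {p : ℕ} (h4 : p % 4 = 3) : #(T p (-1)) ≤ #(T p 1) := by
  obtain ⟨K, hK⟩ : ∃ K, p = 2 * K + 1 := ⟨p / 2, by omega⟩
  have e1 : ((#(T p 1) : ℕ) : ℝ) - #(T p (-1)) = ∑ y ∈ range p, ((jacobiSym y p * sg p y : ℤ) : ℝ) := by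
    rw [T, T, card_filter, card_filter]
    push_cast
    rw [← sum_sub_distrib]
    refine sum_congr rfl (fun y _ => ?_)
    unfold sg
    rcases jacobiSym.trichotomy y p with h | h | h <;> rw [h] <;> by_cases g : 2 * y < p <;> simp [g]
  have e2 := Pool.Agent.H25.GaussB.sum_half (fun y => ((jacobiSym y p * sg p y : ℤ) : ℝ)) K
  rw [← hK, ← e1, Nat.cast_zero, jacobiSym.zero_left (by omega),
    sum_congr rfl (g := fun i => 2 * ((jacobiSym (i + 1 : ℕ) p : ℤ) : ℝ)) (fun i hi => by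
      have := mem_range.1 hi
      rw [J_refl h4 (x := 2 * K - i) (y := i + 1) (by omega), sg, sg, if_pos (by omega), if_neg (by omega)]
      push_cast; ring), ← mul_sum] at e2
  have e3 := S_nonneg p h4
  rw [S, show p / 2 = K by omega] at e3
  have e4 : (0 : ℝ) ≤ ∑ i ∈ range K, ((jacobiSym (i + 1 : ℕ) p : ℤ) : ℝ) := by exact_mod_cast e3
  have e5 : ((#(T p (-1)) : ℕ) : ℝ) ≤ #(T p 1) := by simp at e2 e4; linarith
  exact_mod_cast e5

lemma two_le {p : ℕ} (h3 : 3 < p) (h4 : p % 4 = 3) : 2 ≤ #(T p (-1)) := by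
  obtain ⟨y, y1, y2⟩ : ∃ y : ℕ, 2 * y < p ∧ jacobiSym y p = -1 := by
    rcases jacobiSym.eq_one_or_neg_one (a := (2 : ℕ)) (b := p) (by
      rw [Int.gcd_natCast_natCast]; exact (Nat.coprime_two_left.2 (Nat.odd_iff.2 (by omega)))) with h | h
    · have a := Nat.pow_log_le_self 2 (x := p) (by omega)
      have b := Nat.lt_pow_succ_log_self (b := 2) (by omega) p
      rw [pow_succ] at b
      refine ⟨p - 2 ^ Nat.log 2 p, by omega, ?_⟩
      rw [J_refl h4 (y := 2 ^ Nat.log 2 p) (by omega), Nat.cast_pow, jacobiSym.pow_left, h, one_pow]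
    · exact ⟨2, by omega, h⟩
  have y0 : y ≠ 0 := by
    rintro rfl
    rw [Nat.cast_zero, jacobiSym.zero_left (by omega)] at y2
    omega
  refine one_lt_card.2 ⟨y, mem_filter.2 ⟨mem_range.2 (by omega), ?_⟩, p - y,
    mem_filter.2 ⟨mem_range.2 (by omega), ?_⟩, by omega⟩
  · rw [y2, sg, if_pos y1]; rfl
  · rw [J_refl h4 (y := y) (by omega), y2, sg, if_neg (by omega)]; rfl

theorem result (p : ℕ) (h3 : 3 < p) (h4 : p % 4 = 3) :
    (M p).card ≤ (Mbar p).card ∧ 2 ≤ (M p).card := by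
  have e1 : M p = A p (-1) := filter_congr (fun n _ => by rw [pow_succ]; simp)
  have e2 : Mbar p = A p 1 := filter_congr (fun n _ => by rw [one_mul])
  rw [e1, e2, card_eq h4 (by norm_num), card_eq h4 (by norm_num)]
  exact ⟨T_le h4, two_le h3 h4⟩

end Pool.Agent.Results.MP_54f1ce_nt.CaoParity
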